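import Pool.Agent.Char3.Final
import Pool.Agent.Char3.Unique
import Pool.Agent.Char3.Frozen

set_option autoImplicit false

namespace Pool.Agent.Results.MP_a1e562_co.OrderThreeModFour

/-- A finite projective plane of order congruent to 3 modulo 4 in which every quadrangle generates
a subplane with exactly 13 points (that is, of order 3) is isomorphic to PG(2,F) for a field F. -/
theorem result :
    ∀ (P L : Type) [Membership P L] [Configuration.ProjectivePlane P L],
      Finite P →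
      Configuration.ProjectivePlane.order P L % 4 = 3 →
      (∀ a b c d : P,
        (¬ ∃ l : L, a ∈ l ∧ b ∈ l ∧ c ∈ l) →
        (¬ ∃ l : L, a ∈ l ∧ b ∈ l ∧ d ∈ l) →
        (¬ ∃ l : L, a ∈ l ∧ c ∈ l ∧ d ∈ l) →
        (¬ ∃ l : L, b ∈ l ∧ c ∈ l ∧ d ∈ l) →
        Set.ncard {x : P | ∀ (S : Set P) (T : Set L),
            a ∈ S → b ∈ S → c ∈ S → d ∈ S →
            (∀ p ∈ S, ∀ q ∈ S, p ≠ q → ∀ l : L, p ∈ l → q ∈ l → l ∈ T) →
            (∀ l ∈ T, ∀ m ∈ T, l ≠ m → ∀ p : P, p ∈ l → p ∈ m → p ∈ S) →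
            x ∈ S} = 13) →
      ∃ (F : Type) (_ : Field F) (f : P ≃ Projectivization F (Fin 3 → F))
        (g : L ≃ {W : Submodule F (Fin 3 → F) // Module.finrank F W = 2}),
        ∀ (p : P) (l : L), p ∈ l ↔ (f p).submodule ≤ (g l).1 := by
  intro P L _ _ hfin hn h
  have hfl : Finite L := Pool.Agent.Char3.finite_lines (P := P)
  have h3 : Pool.Agent.Char3.IsChar3 P L := Pool.Agent.Char3.isChar3_of_frozen h
  have hU : Pool.Agent.Char3.UniqueFourth P L := by
    rintro a b c d d' ⟨S, T, m, X, hS, ha, hb, hc, hd, hab, hac, had, hbc, hbd, hcd, aS, bS, cS,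
      dS, XS, Xm⟩ ⟨S', T', m', X', hS', ha', hb', hc', hd', hab', hac', had', hbc', hbd', hcd',
      aS', bS', cS', dS', XS', Xm'⟩
    have hmm : m' = m := Pool.Agent.Char3.line_eq hab ha' hb' ha hb
    subst hmm
    exact Pool.Agent.Char3.fourth_point_unique h3 hn hS hS' ha hb hc hd hd' hab.symm hac.symm hbc
      had.symm hbd.symm hcd.symm had'.symm hbd'.symm hcd'.symm aS bS cS dS XS Xm aS' bS' cS' dS'
      XS' Xm'
  exact Pool.Agent.Char3.iso_of_unique hU h3

end Pool.Agent.Results.MP_a1e562_co.OrderThreeModFour
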